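import Mathlib
import Pool.Agent.Lib.helper17.CFGDer

set_option autoImplicit false

namespace Pool.Agent.Results.MP_8f9e48_lc.AllComplete

open H17Der

/-- A context-free grammar without empty right-hand sides. Nonterminal letters are
`Symbol.nonterminal n`, terminal letters are `Symbol.terminal t`, with `n t : ℕ`. -/
structure Gram where
  N : Finset ℕ
  T : Finset ℕ
  P : Finset (ContextFreeRule ℕ ℕ)
  S : ℕ
  start_mem : S ∈ N
  input_mem : ∀ r ∈ P, r.input ∈ N
  output_ne : ∀ r ∈ P, r.output ≠ []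
  nt_mem : ∀ r ∈ P, ∀ n, Symbol.nonterminal n ∈ r.output → n ∈ N
  t_mem : ∀ r ∈ P, ∀ t, Symbol.terminal t ∈ r.output → t ∈ T

/-- The language generated. -/
def Gram.lang (G : Gram) : Language ℕ := (ContextFreeGrammar.mk ℕ G.S G.P).language

/-- `y ∈ σ x` for letters `x`, `y`. -/
def symRel (σN σT : ℕ → Finset ℕ) : Symbol ℕ ℕ → Symbol ℕ ℕ → Prop
  | Symbol.terminal x, Symbol.terminal y => y ∈ σT x
  | Symbol.nonterminal x, Symbol.nonterminal y => y ∈ σN x
  | _, _ => False

/-- `G'` is an interpretation of `G`. -/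
def Interp (G' G : Gram) : Prop :=
  ∃ σN σT : ℕ → Finset ℕ,
    (∀ x ∈ G.N, (σN x).Nonempty) ∧ (∀ x ∈ G.T, (σT x).Nonempty) ∧
    (∀ x ∈ G.N, ∀ y ∈ G.N, x ≠ y → Disjoint (σN x) (σN y)) ∧
    (∀ x ∈ G.T, ∀ y ∈ G.T, x ≠ y → Disjoint (σT x) (σT y)) ∧
    G'.N = G.N.biUnion σN ∧ G'.T = G.T.biUnion σT ∧ G'.S ∈ σN G.S ∧
    ∀ r' ∈ G'.P, ∃ r ∈ G.P, r'.input ∈ σN r.input ∧
      List.Forall₂ (symRel σN σT) r.output r'.output

/-- The grammatical family of `G`. -/
def fam (G : Gram) : Set (Language ℕ) := {L | ∃ G', Interp G' G ∧ G'.lang = L}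

open Classical in
/-- The `a`-restriction: delete every production in which a terminal `b ≠ a` occurs. -/
noncomputable def restrict (G : Gram) (a : ℕ) : Gram where
  N := G.N
  T := G.T
  P := G.P.filter (fun r => ∀ b, Symbol.terminal b ∈ r.output → b = a)
  S := G.S
  start_mem := G.start_mem
  input_mem := fun r hr => G.input_mem r (Finset.mem_filter.mp hr).1
  output_ne := fun r hr => G.output_ne r (Finset.mem_filter.mp hr).1
  nt_mem := fun r hr => G.nt_mem r (Finset.mem_filter.mp hr).1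
  t_mem := fun r hr => G.t_mem r (Finset.mem_filter.mp hr).1

theorem mem_lang (G : Gram) (w : List ℕ) :
    w ∈ G.lang ↔ Der (↑G.P) [Symbol.nonterminal G.S] w :=
  mem_language_iff_der (ContextFreeGrammar.mk ℕ G.S G.P) w

def sh {NT : Type} (μ : NT → ℕ) : Symbol ℕ ℕ → Symbol ℕ NT → Prop
  | Symbol.terminal _, Symbol.terminal _ => True
  | Symbol.nonterminal x, Symbol.nonterminal n => μ n = x
  | _, _ => False

theorem forall₂_mem_right {α β : Type} {R : α → β → Prop} {l : List α} {l' : List β}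
    (h : List.Forall₂ R l l') : ∀ b ∈ l', ∃ a ∈ l, R a b := by
  induction h with
  | nil => simp
  | cons hab _ ih =>
    intro b hb
    rcases List.mem_cons.mp hb with rfl | hb
    · exact ⟨_, by simp, hab⟩
    · obtain ⟨a, ha, h⟩ := ih b hb
      exact ⟨a, by simp [ha], h⟩

theorem forall₂_mem_left {α β : Type} {R : α → β → Prop} {l : List α} {l' : List β}
    (h : List.Forall₂ R l l') : ∀ a ∈ l, ∃ b ∈ l', R a b :=
  forall₂_mem_right (R := flip R) h.flip

theorem forall₂_imp_mem {α β : Type} {R R' : α → β → Prop} {l : List α} {l' : List β}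
    (h : List.Forall₂ R l l') (H : ∀ a ∈ l, ∀ b ∈ l', R a b → R' a b) :
    List.Forall₂ R' l l' := by
  induction h with
  | nil => exact List.Forall₂.nil
  | cons hab _ ih =>
    exact List.Forall₂.cons (H _ (by simp) _ (by simp) hab)
      (ih fun a ha b hb => H a (by simp [ha]) b (by simp [hb]))

theorem forall₂_comp {α β γ : Type} {R : α → β → Prop} {R' : β → γ → Prop} {R'' : α → γ → Prop}
    (H : ∀ a b c, R a b → R' b c → R'' a c) {l : List α} {l' : List β}
    (h : List.Forall₂ R l l') : ∀ {l'' : List γ}, List.Forall₂ R' l' l'' →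
      List.Forall₂ R'' l l'' := by
  induction h with
  | nil => intro l'' h; cases h; exact List.Forall₂.nil
  | cons hab _ ih =>
    intro l'' h
    cases h with
    | cons h1 h2 => exact List.Forall₂.cons (H _ _ _ hab h1) (ih h2)

theorem toFam (K : Gram) (c : ℕ) (hc : c ∈ K.T)
    (hK : ∀ r ∈ K.P, ∀ b, Symbol.terminal b ∈ r.output → b = c)
    {NT : Type} [Countable NT] (P : Set (ContextFreeRule ℕ NT)) (hP : P.Finite) (S : NT)
    (μ : NT → ℕ) (hS : μ S = K.S)
    (h : ∀ r' ∈ P, ∃ r ∈ K.P, μ r'.input = r.input ∧ List.Forall₂ (sh μ) r.output r'.output)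
    (L : Language ℕ) (hL : ∀ w, w ∈ L ↔ Der P [Symbol.nonterminal S] w) : L ∈ fam K := by
  classical
  obtain ⟨e0, he0⟩ := Countable.exists_injective_nat NT
  let e : NT → ℕ := fun n => 2 * e0 n
  have he : Function.Injective e := fun a b hab => he0 (by simp only [e] at hab; omega)
  have hU : {n : NT | n = S ∨ ∃ r ∈ P, n = r.input ∨ Symbol.nonterminal n ∈ r.output}.Finite := by
    refine ((Set.finite_singleton S).union (hP.biUnion (t := fun r =>
      {n : NT | n = r.input ∨ Symbol.nonterminal n ∈ r.output}) fun r _ => ?_)).subset ?_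
    · refine (Set.finite_singleton r.input).union ?_
      exact (List.finite_toSet r.output).preimage
        (f := fun n : NT => (Symbol.nonterminal n : Symbol ℕ NT))
        (fun a _ b _ hab => by simpa using hab)
    · rintro n (rfl | ⟨r, hr, hn⟩)
      · left; rfl
      · right; simp only [Set.mem_iUnion]; exact ⟨r, hr, hn⟩
  have hV : {t : ℕ | ∃ r ∈ P, Symbol.terminal t ∈ r.output}.Finite := by
    refine (hP.biUnion (t := fun r =>
      {t : ℕ | Symbol.terminal t ∈ r.output}) fun r _ => ?_).subset ?_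
    · exact (List.finite_toSet r.output).preimage
        (f := fun n : ℕ => (Symbol.terminal n : Symbol ℕ NT))
        (fun a _ b _ hab => by simpa using hab)
    · rintro n ⟨r, hr, hn⟩
      simp only [Set.mem_iUnion]; exact ⟨r, hr, hn⟩
  obtain ⟨B, hB⟩ := hV.bddAbove
  let σN : ℕ → Finset ℕ := fun x =>
    insert (2 * x + 1) ((hU.toFinset.filter fun n => μ n = x).image e)
  let σT : ℕ → Finset ℕ := fun t =>
    if t = c then insert (B + 1 + c) hV.toFinset else {B + 1 + t}
  have mN : ∀ n, (n = S ∨ ∃ r ∈ P, n = r.input ∨ Symbol.nonterminal n ∈ r.output) →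
      e n ∈ σN (μ n) := fun n hn =>
    Finset.mem_insert_of_mem (Finset.mem_image_of_mem e (by simpa using hn))
  have mT : ∀ r ∈ P, ∀ t, Symbol.terminal t ∈ r.output → t ∈ σT c := fun r hr t ht => by
    simp only [σT, if_true]
    exact Finset.mem_insert_of_mem (by simpa using ⟨r, hr, ht⟩)
  have key : ∀ r' ∈ P, ∃ r ∈ K.P, e r'.input ∈ σN r.input ∧
      List.Forall₂ (symRel σN σT) r.output (r'.output.map (mapS e)) := by
    intro r' hr'
    obtain ⟨r, hr, h1, h2⟩ := h r' hr'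
    refine ⟨r, hr, h1 ▸ mN _ (Or.inr ⟨r', hr', Or.inl rfl⟩), ?_⟩
    rw [List.forall₂_map_right_iff]
    refine forall₂_imp_mem h2 fun a ha b hb hab => ?_
    cases a with
    | terminal x =>
      cases b with
      | terminal y =>
        obtain rfl := hK r hr x ha
        exact mT r' hr' y hb
      | nonterminal n => exact absurd hab (by simp [sh])
    | nonterminal x =>
      cases b with
      | terminal y => exact absurd hab (by simp [sh])
      | nonterminal n =>
        obtain rfl : μ n = x := hab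
        exact mN n (Or.inr ⟨r', hr', Or.inr hb⟩)
  have hmem : ∀ r'' ∈ (hP.image (mapR e)).toFinset, ∃ r ∈ K.P, r''.input ∈ σN r.input ∧
      List.Forall₂ (symRel σN σT) r.output r''.output := by
    intro r'' hr''
    obtain ⟨r', hr', rfl⟩ := (Set.Finite.mem_toFinset _).mp hr''
    exact key r' hr'
  refine ⟨⟨K.N.biUnion σN, K.T.biUnion σT, (hP.image (mapR e)).toFinset, e S, ?_, ?_, ?_, ?_, ?_⟩,
    ⟨σN, σT, ?_, ?_, ?_, ?_, rfl, rfl, hS ▸ mN S (Or.inl rfl), hmem⟩, ?_⟩
  · exact Finset.mem_biUnion.mpr ⟨K.S, K.start_mem, hS ▸ mN S (Or.inl rfl)⟩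
  · intro r'' hr''
    obtain ⟨r, hr, h1, _⟩ := hmem r'' hr''
    exact Finset.mem_biUnion.mpr ⟨_, K.input_mem r hr, h1⟩
  · intro r'' hr'' h0
    obtain ⟨r, hr, _, h2⟩ := hmem r'' hr''
    rw [h0, List.forall₂_nil_right_iff] at h2
    exact K.output_ne r hr h2
  · intro r'' hr'' n hn
    obtain ⟨r, hr, _, h2⟩ := hmem r'' hr''
    obtain ⟨a, ha, hab⟩ := forall₂_mem_right h2 _ hn
    cases a with
    | terminal x => exact absurd hab (by simp [symRel])
    | nonterminal x => exact Finset.mem_biUnion.mpr ⟨x, K.nt_mem r hr x ha, hab⟩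
  · intro r'' hr'' n hn
    obtain ⟨r, hr, _, h2⟩ := hmem r'' hr''
    obtain ⟨a, ha, hab⟩ := forall₂_mem_right h2 _ hn
    cases a with
    | nonterminal x => exact absurd hab (by simp [symRel])
    | terminal x => exact Finset.mem_biUnion.mpr ⟨x, K.t_mem r hr x ha, hab⟩
  · intro x _
    exact Finset.insert_nonempty _ _
  · intro x _
    simp only [σT]
    split_ifs
    · exact Finset.insert_nonempty _ _
    · exact Finset.singleton_nonempty _
  · intro x _ y _ hxy
    rw [Finset.disjoint_left]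
    intro a ha hb
    simp only [σN, Finset.mem_insert, Finset.mem_image, Finset.mem_filter] at ha hb
    rcases ha with rfl | ⟨n, ⟨_, h1⟩, rfl⟩
    · rcases hb with hb | ⟨n, _, hb⟩
      · omega
      · simp only [e] at hb; omega
    · rcases hb with hb | ⟨n', ⟨_, h2⟩, hb⟩
      · simp only [e] at hb; omega
      · exact hxy (by rw [← h1, ← h2, he hb])
  · intro x _ y _ hxy
    rw [Finset.disjoint_left]
    intro a ha hb
    have hV' : ∀ a ∈ hV.toFinset, a ≤ B := fun a ha => hB ((Set.Finite.mem_toFinset _).mp ha)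
    simp only [σT] at ha hb
    split_ifs at ha hb with h1 h2 h2
    · exact hxy (h1.trans h2.symm)
    · rw [Finset.mem_singleton] at hb
      rcases Finset.mem_insert.mp ha with ha | ha
      · omega
      · have := hV' a ha; omega
    · rw [Finset.mem_singleton] at ha
      rcases Finset.mem_insert.mp hb with hb | hb
      · omega
      · have := hV' a hb; omega
    · rw [Finset.mem_singleton] at ha hb
      omega
  · ext w
    rw [mem_lang, hL, ← der_map e he]
    simp [mapS]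

/-- the master closure property for a form whose productions use only the terminal `c` -/
theorem closure (K : Gram) (c : ℕ) (hc : c ∈ K.T)
    (hK : ∀ r ∈ K.P, ∀ b, Symbol.terminal b ∈ r.output → b = c)
    {J M : Type} [Finite J] [Finite M] (G : J → Gram) (μ : J → ℕ → ℕ)
    (ρ : J → ℕ → ℕ → Prop) (hρ : ∀ j x, {y | ρ j x y}.Finite)
    (τ : List ℕ → M) (op : M → M → M) (hτ : ∀ u v, τ (u ++ v) = op (τ u) (τ v)) (A : Set M)
    (hS : ∀ j, μ j (G j).S = K.S)
    (h : ∀ j, ∀ r' ∈ (G j).P, (∀ x, Symbol.terminal x ∈ r'.output → ∃ y, ρ j x y) →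
      ∃ r ∈ K.P, μ j r'.input = r.input ∧ List.Forall₂ (sh (μ j)) r.output r'.output) :
    ({w | ∃ j, ∃ u ∈ (G j).lang, List.Forall₂ (ρ j) u w ∧ τ w ∈ A} : Language ℕ) ∈ fam K := by
  let ν : Option (J × ℕ × M) → ℕ := fun o => o.elim K.S fun p => μ p.1 p.2.1
  refine toFam K c hc hK (rules (fun j => ↑(G j).P) (fun j => (G j).S) ρ τ op A)
    (rules_finite _ _ _ _ _ _ (fun j => (G j).P.finite_toSet) hρ) none ν rfl ?_ _ ?_
  · rintro r'' ⟨j, r', hr', h1, h2⟩
    obtain ⟨r, hr, h3, h4⟩ := h j r' hr' fun x hx => by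
      obtain ⟨b, _, hb⟩ := forall₂_mem_left h1 _ hx
      cases b with
      | terminal y => exact ⟨y, hb⟩
      | nonterminal o => exact absurd hb (by simp [lift])
    refine ⟨r, hr, ?_, forall₂_comp ?_ h4 h1⟩
    · rcases h2 with h2 | ⟨h2, h5, _⟩
      · rw [h2]; exact h3
      · rw [h2, ← h3, h5, hS]; rfl
    · intro a b d hab hbd
      cases a <;> cases b <;> cases d <;> simp only [sh, lift] at hab hbd ⊢
      obtain ⟨m, rfl⟩ := hbd
      exact hab
  · intro w
    rw [master _ _ _ _ _ _ hτ]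
    simp only [← mem_lang]
    rfl

theorem ofInterp {G' K : Gram} (h : Interp G' K) : ∃ (μ : ℕ → ℕ) (σT : ℕ → Finset ℕ),
    μ G'.S = K.S ∧ (∀ x ∈ K.T, ∀ y ∈ K.T, x ≠ y → Disjoint (σT x) (σT y)) ∧
    ∀ r' ∈ G'.P, ∃ r ∈ K.P, μ r'.input = r.input ∧ List.Forall₂ (sh μ) r.output r'.output ∧
      ∀ x, Symbol.terminal x ∈ r.output → ∃ y ∈ σT x, Symbol.terminal y ∈ r'.output := by
  classical
  obtain ⟨σN, σT, _, _, h3, h4, _, _, h7, h8⟩ := h
  let μ : ℕ → ℕ := fun n => if h : ∃ x ∈ K.N, n ∈ σN x then h.choose else 0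
  have hμ : ∀ x ∈ K.N, ∀ n ∈ σN x, μ n = x := by
    intro x hx n hn
    have h : ∃ x ∈ K.N, n ∈ σN x := ⟨x, hx, hn⟩
    simp only [μ, dif_pos h]
    by_contra hne
    exact Finset.disjoint_left.mp (h3 _ h.choose_spec.1 x hx hne) h.choose_spec.2 hn
  refine ⟨μ, σT, hμ _ K.start_mem _ h7, h4, fun r' hr' => ?_⟩
  obtain ⟨r, hr, k1, k2⟩ := h8 r' hr'
  refine ⟨r, hr, hμ _ (K.input_mem r hr) _ k1, forall₂_imp_mem k2 fun a ha b _ hab => ?_,
    fun x hx => ?_⟩
  · cases a <;> cases b <;> simp only [sh, symRel] at hab ⊢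
    exact hμ _ (K.nt_mem r hr _ ha) _ hab
  · obtain ⟨b, hb, hab⟩ := forall₂_mem_left k2 _ hx
    cases b with
    | terminal y => exact ⟨y, hab, hb⟩
    | nonterminal o => exact absurd hab (by simp [symRel])

theorem closure' (K : Gram) (c : ℕ) (hc : c ∈ K.T)
    (hK : ∀ r ∈ K.P, ∀ b, Symbol.terminal b ∈ r.output → b = c)
    {J : Type} [Finite J] (L : J → Language ℕ) (hL : ∀ j, L j ∈ fam K)
    (ρ : J → ℕ → ℕ → Prop) (hρ : ∀ j x, {y | ρ j x y}.Finite) :
    ({w | ∃ j, ∃ u ∈ L j, List.Forall₂ (ρ j) u w} : Language ℕ) ∈ fam K := by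
  choose G hG hGL using hL
  choose μ σT h1 _ h3 using fun j => ofInterp (hG j)
  have := closure K c hc hK G μ ρ hρ (fun _ => ()) (fun _ _ => ()) (fun _ _ => rfl) Set.univ h1
    fun j r' hr' _ => by
      obtain ⟨r, hr, k1, k2, _⟩ := h3 j r' hr'
      exact ⟨r, hr, k1, k2⟩
  simpa only [hGL, Set.mem_univ, and_true] using this

open Combinatorics in
theorem line_inj {Z ι : Type} (l : Line Z ι) {z z' : Z} (h : l z = l z') : z = z' := by
  obtain ⟨i, hi⟩ := l.proper
  have := congrFun h i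
  rwa [l.apply_none _ _ hi, l.apply_none _ _ hi] at this

open Combinatorics in
theorem line_eq {Z ι : Type} (l l' : Line Z ι) {z1 z2 y1 y2 : Z} (h1 : l z1 = l' y1)
    (h2 : l z2 = l' y2) (hz : z1 ≠ z2) (z : Z) : l z = l' z := by
  funext i
  have e1 := congrFun h1 i
  have e2 := congrFun h2 i
  cases hi : l.idxFun i with
  | none =>
    cases hi' : l'.idxFun i with
    | none => rw [l.apply_none _ _ hi, l'.apply_none _ _ hi']
    | some a =>
      rw [l.apply_none _ _ hi, Line.apply_some hi'] at e1 e2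
      exact absurd (e1.trans e2.symm) hz
  | some a =>
    cases hi' : l'.idxFun i with
    | none =>
      rw [l'.apply_none _ _ hi', Line.apply_some hi] at e1 e2
      subst e1; subst e2
      exact absurd (line_inj l (h1.trans h2.symm)) hz
    | some a' =>
      rw [Line.apply_some hi', Line.apply_some hi] at e1 ⊢
      exact e1

open Combinatorics in
theorem result (G H : Gram) (hG : G.T.card = 1) (hH : 2 ≤ H.T.card) (h : fam H = fam G) :
    ∃ a ∈ H.T, fam (restrict H a) = fam G := by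
  classical
  by_contra hcon
  push Not at hcon
  have hsub : ∀ a, fam (restrict H a) ⊆ fam G := by
    rintro a L ⟨G', ⟨σN, σT, h1, h2, h3, h4, h5, h6, h7, h8⟩, rfl⟩
    rw [← h]
    refine ⟨G', ⟨σN, σT, h1, h2, h3, h4, h5, h6, h7, fun r' hr' => ?_⟩, rfl⟩
    obtain ⟨r, hr, k⟩ := h8 r' hr'
    exact ⟨r, (Finset.mem_filter.mp hr).1, k⟩
  have hex : ∀ c : H.T, ∃ L ∈ fam G, L ∉ fam (restrict H c) := fun c => by
    by_contra h'
    push Not at h'
    exact hcon c c.2 (Set.Subset.antisymm (hsub c) h')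
  choose L hL hnL using hex
  obtain ⟨a, ha⟩ := Finset.card_eq_one.mp hG
  have haG : a ∈ G.T := by simp [ha]
  have hGa : ∀ r ∈ G.P, ∀ b, Symbol.terminal b ∈ r.output → b = a := fun r hr b hb => by
    simpa [ha] using G.t_mem r hr b hb
  obtain ⟨B, hB⟩ : ∃ B : ℕ, ∀ c, ∀ w ∈ L c, ∀ x ∈ w, x < B + 1 := by
    choose Gc _ hGc using hL
    obtain ⟨B, hB⟩ := (Finset.univ.biUnion fun c => (Gc c).T).bddAbove
    refine ⟨B, fun c w hw x hx => Nat.lt_succ_of_le (hB ?_)⟩
    rw [← hGc, mem_lang] at hw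
    have := hw.letters (↑(Gc c).T) (Gc c).t_mem (by simp) x hx
    simp only [Finset.coe_biUnion, Set.mem_iUnion]
    exact ⟨c, by simp, this⟩
  obtain ⟨ι, _, hι⟩ := Line.exists_mono_in_high_dimension (H.T × Fin (B + 1) × Bool) H.T
  obtain ⟨enc, henc⟩ := Countable.exists_injective_nat (ι → H.T × Fin (B + 1) × Bool)
  have : Finite (Line (H.T × Fin (B + 1) × Bool) ι) :=
    Finite.of_injective Line.idxFun fun l l' hl => by
      cases l; cases l'; congr
  let ρ : Line (H.T × Fin (B + 1) × Bool) ι × H.T → ℕ → ℕ → Prop := fun j x y =>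
    ∃ (i : Fin (B + 1)) (b : Bool), i.val = x ∧ y = enc (j.1 (j.2, i, b))
  have hρ : ∀ j x, {y | ρ j x y}.Finite := fun j x =>
    (Set.finite_range enc).subset fun y ⟨i, b, _, hy⟩ => ⟨_, hy.symm⟩
  have hL2 := closure' G a haG hGa (fun j : Line _ ι × H.T => L j.2) (fun j => hL j.2) ρ hρ
  rw [← h] at hL2
  obtain ⟨H', hH', hL2⟩ := hL2
  obtain ⟨μ, σT, k1, k2, k3⟩ := ofInterp hH'
  obtain ⟨c0, hc0⟩ : H.T.Nonempty := Finset.card_pos.mp (by omega)
  let χ : (ι → H.T × Fin (B + 1) × Bool) → H.T := fun v =>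
    if h : ∃ t : H.T, enc v ∈ σT t then h.choose else ⟨c0, hc0⟩
  have hχ : ∀ v, ∀ t ∈ H.T, enc v ∈ σT t → (χ v : ℕ) = t := by
    intro v t ht hv
    have h : ∃ t : H.T, enc v ∈ σT t := ⟨⟨t, ht⟩, hv⟩
    simp only [χ, dif_pos h]
    by_contra hne
    exact Finset.disjoint_left.mp (k2 _ h.choose.2 t ht hne) h.choose_spec hv
  obtain ⟨l, c, hl⟩ := hι χ
  have hcK : (c : ℕ) ∈ (restrict H c).T := c.2
  have hK : ∀ r ∈ (restrict H c).P, ∀ b, Symbol.terminal b ∈ r.output → b = c :=
    fun r hr => (Finset.mem_filter.mp hr).2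
  let τ : List ℕ → (H.T × Fin (B + 1) × Bool → Prop) × Prop × Prop := fun w =>
    (fun z => enc (l z) ∈ w, w.length = 0, w.length = 1)
  let op : (H.T × Fin (B + 1) × Bool → Prop) × Prop × Prop →
      (H.T × Fin (B + 1) × Bool → Prop) × Prop × Prop →
      (H.T × Fin (B + 1) × Bool → Prop) × Prop × Prop := fun m m' =>
    (fun z => m.1 z ∨ m'.1 z, m.2.1 ∧ m'.2.1, (m.2.1 ∧ m'.2.2) ∨ (m.2.2 ∧ m'.2.1))
  have hτ : ∀ u v, τ (u ++ v) = op (τ u) (τ v) := by
    intro u v
    simp only [τ, op, List.mem_append, List.length_append, Prod.mk.injEq, eq_iff_iff, true_and]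
    omega
  let A : Set ((H.T × Fin (B + 1) × Bool → Prop) × Prop × Prop) :=
    {m | (∃ z1 z2, z1 ≠ z2 ∧ m.1 z1 ∧ m.1 z2) ∨ (m.2.2 ∧ ∀ z, m.1 z → [z.2.1.val] ∈ L c) ∨
      (m.2.1 ∧ [] ∈ L c)}
  have hL1 := closure (restrict H c) c hcK hK (J := Unit) (fun _ => H') (fun _ => μ)
    (fun _ x y => y = x ∧ ∃ z, x = enc (l z)) (fun _ x => (Set.finite_singleton x).subset
      fun y hy => hy.1) τ op hτ A (fun _ => k1) (by
    intro _ r' hr' hx
    obtain ⟨r, hr, q1, q2, q3⟩ := k3 r' hr'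
    refine ⟨r, Finset.mem_filter.mpr ⟨hr, fun b hb => ?_⟩, q1, q2⟩
    obtain ⟨y, hy, hy'⟩ := q3 b hb
    obtain ⟨_, _, z, rfl⟩ := hx y hy'
    rw [← hχ _ b (H.t_mem r hr b hb) hy, hl])
  have hL3 := closure' (restrict H c) c hcK hK (J := Unit) _ (fun _ => hL1)
    (fun _ y x => ρ (l, c) x y) (fun _ y => (Set.finite_lt_nat (B + 1)).subset (by
      rintro x ⟨i, b, rfl, _⟩
      exact i.2))
  apply hnL c
  refine Set.mem_of_eq_of_mem ?_ hL3
  ext w
  constructor
  · intro hw
    have main : ∀ u, List.Forall₂ (ρ (l, c)) w u → τ u ∈ A →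
        ∃ _ : Unit, ∃ u ∈ ({w | ∃ _ : Unit, ∃ u ∈ H'.lang,
          List.Forall₂ (fun x y => y = x ∧ ∃ z, x = enc (l z)) u w ∧ τ w ∈ A} : Language ℕ),
          List.Forall₂ (fun y x => ρ (l, c) x y) u w := by
      intro u hu hA
      refine ⟨(), u, ⟨(), u, ?_, ?_, hA⟩, hu.flip⟩
      · rw [hL2]; exact ⟨(l, c), w, hw, hu⟩
      · rw [List.forall₂_same]
        intro y hy
        obtain ⟨x, _, i, b, _, rfl⟩ := forall₂_mem_right hu y hy
        exact ⟨rfl, _, rfl⟩
    let f : Bool → ℕ → ℕ := fun b x => enc (l (c, Fin.ofNat (B + 1) x, b))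
    have hf : ∀ b, ∀ x ∈ w, ρ (l, c) x (f b x) := fun b x hx =>
      ⟨Fin.ofNat (B + 1) x, b, Nat.mod_eq_of_lt (hB c w hw x hx), rfl⟩
    match w, hw, main, hf with
    | [], hw, main, _ => exact main [] List.Forall₂.nil (Or.inr (Or.inr ⟨rfl, hw⟩))
    | [x], hw, main, hf =>
      refine main [f false x] (List.Forall₂.cons (hf _ _ (by simp)) List.Forall₂.nil)
        (Or.inr (Or.inl ⟨rfl, fun z hz => ?_⟩))
      have hz' : enc (l z) = f false x := by simpa [τ] using hz
      rw [line_inj l (henc hz')]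
      have : (Fin.ofNat (B + 1) x).val = x := Nat.mod_eq_of_lt (hB c _ hw x (by simp))
      simp only [this]
      exact hw
    | x :: y :: w', hw, main, hf =>
      refine main (f true x :: (y :: w').map (f false))
        (List.Forall₂.cons (hf _ _ (by simp)) ?_)
        (Or.inl ⟨(c, Fin.ofNat (B + 1) x, true), (c, Fin.ofNat (B + 1) y, false), by simp,
          by simp [τ, f], by simp [τ, f]⟩)
      rw [List.forall₂_map_right_iff, List.forall₂_same]
      intro x' hx'
      exact hf _ _ (List.mem_cons_of_mem _ hx')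
  · rintro ⟨_, u, ⟨_, u', hu', h1, hA⟩, h2⟩
    obtain rfl : u' = u := List.forall₂_eq_eq_eq ▸ h1.imp fun _ _ h => h.1.symm
    rw [hL2] at hu'
    obtain ⟨⟨l', c'⟩, w', hw', h3⟩ := hu'
    rcases hA with ⟨z1, z2, hz, m1, m2⟩ | ⟨m1, m2⟩ | ⟨m1, m2⟩
    · obtain ⟨_, _, i1, b1, _, e1⟩ := forall₂_mem_right h3 _ m1
      obtain ⟨_, _, i2, b2, _, e2⟩ := forall₂_mem_right h3 _ m2
      have hll := line_eq l l' (henc e1) (henc e2) hz
      obtain ⟨_, _, i3, b3, _, e3⟩ := forall₂_mem_left h2 _ m1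
      have hcc : c' = c := by
        have := line_inj l' ((henc e1).symm.trans ((henc e3).trans (hll _)))
        exact congrArg Prod.fst this
      subst hcc
      obtain rfl : w' = w := List.forall₂_eq_eq_eq ▸ forall₂_comp (R'' := (· = ·)) (by
        rintro x y x' ⟨i, b, rfl, rfl⟩ ⟨i', b', rfl, e⟩
        have := line_inj l' ((henc e).trans (hll _))
        simp only [Prod.mk.injEq] at this
        rw [this.2.1]) h3 h2
      exact hw'
    · obtain ⟨y, rfl⟩ := List.length_eq_one_iff.mp m1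
      obtain ⟨x, w0, ⟨i, b, rfl, rfl⟩, h4, rfl⟩ := List.forall₂_cons_left_iff.mp h2
      rw [List.forall₂_nil_left_iff] at h4
      subst h4
      exact m2 (c, i, b) (by simp [τ])
    · obtain rfl := List.length_eq_zero_iff.mp m1
      rw [List.forall₂_nil_left_iff] at h2
      subst h2
      exact m2

end Pool.Agent.Results.MP_8f9e48_lc.AllComplete
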